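import Pool.Agent.helper36.NF.Spec

set_option autoImplicit false

open Polynomial Filter

namespace Pool.Agent.NoFormula

theorem LVA_congr (k : ℕ) (f g : ℕ → ℤ) (hf : Lev k f) (h : ∀ᶠ m : ℕ in atTop, f m = g m) :
    Lev k g := by
  cases k with
  | zero =>
    obtain ⟨p, hp⟩ := hf
    exact ⟨p, by filter_upwards [hp, h] with m h1 h2; rw [← h2, h1]⟩
  | succ k =>
    obtain ⟨L, hL, hs⟩ := hf
    exact ⟨L, hL, by filter_upwards [hs, h] with m h1 h2; rw [← h2, h1]⟩

theorem LVA_poly (k : ℕ) : ∀ p : ℤ[X], Lev k (fun m => p.eval (m : ℤ)) := by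
  induction k with
  | zero => exact fun p => ⟨p, Eventually.of_forall fun m => rfl⟩
  | succ k ih =>
    intro p
    refine ⟨[(p, fun _ => 0)], ?_, Eventually.of_forall fun m => by simp [sm, tm]⟩
    intro x hx
    rw [List.mem_singleton] at hx
    subst hx
    exact ⟨LVA_congr k _ _ (ih 0) (Eventually.of_forall fun m => by simp),
      Eventually.of_forall fun m => le_refl _⟩

theorem LVA_add (k : ℕ) (f g : ℕ → ℤ) (hf : Lev k f) (hg : Lev k g) :
    Lev k (fun m => f m + g m) := by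
  cases k with
  | zero =>
    obtain ⟨p, hp⟩ := hf
    obtain ⟨q, hq⟩ := hg
    exact ⟨p + q, by filter_upwards [hp, hq] with m h1 h2; rw [h1, h2, eval_add]⟩
  | succ k =>
    obtain ⟨L, hL, h⟩ := hf
    obtain ⟨M, hM, h'⟩ := hg
    refine ⟨L ++ M, ?_, ?_⟩
    · intro x hx
      rcases List.mem_append.mp hx with h1 | h1
      · exact hL x h1
      · exact hM x h1
    · filter_upwards [h, h'] with m h1 h2
      rw [h1, h2]
      simp [sm]

theorem LVA_sm_neg (m : ℕ) (L : List (ℤ[X] × (ℕ → ℤ))) :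
    sm (L.map (fun x => (-x.1, x.2))) m = - sm L m := by
  induction L with
  | nil => simp [sm]
  | cons a l ih =>
    simp only [sm, List.map_cons, List.sum_cons] at ih ⊢
    rw [ih]
    simp only [tm, eval_neg]
    ring

theorem LVA_neg (k : ℕ) (f : ℕ → ℤ) (hf : Lev k f) : Lev k (fun m => - f m) := by
  cases k with
  | zero =>
    obtain ⟨p, hp⟩ := hf
    exact ⟨-p, by filter_upwards [hp] with m h1; rw [h1, eval_neg]⟩
  | succ k =>
    obtain ⟨L, hL, h⟩ := hf
    refine ⟨L.map (fun x => (-x.1, x.2)), ?_, ?_⟩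
    · intro x hx
      obtain ⟨y, hy, rfl⟩ := List.mem_map.mp hx
      exact hL y hy
    · filter_upwards [h] with m h1
      rw [h1, LVA_sm_neg]

theorem LVA_all (L : List (ℤ[X] × (ℕ → ℤ))) (h : ∀ x ∈ L, ∀ᶠ m : ℕ in atTop, 0 ≤ x.2 m) :
    ∀ᶠ m : ℕ in atTop, ∀ x ∈ L, 0 ≤ x.2 m := by
  induction L with
  | nil => exact Eventually.of_forall fun m x hx => absurd hx (by simp)
  | cons a l ih =>
    have h1 := ih (fun x hx => h x (List.mem_cons_of_mem _ hx))
    have h2 := h a (List.mem_cons_self)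
    filter_upwards [h1, h2] with m h3 h4
    intro x hx
    rcases List.mem_cons.mp hx with h5 | h5
    · rw [h5]; exact h4
    · exact h3 x h5

/-- the product of one term with a list -/
noncomputable def LVA_one (x : ℤ[X] × (ℕ → ℤ)) (M : List (ℤ[X] × (ℕ → ℤ))) : List (ℤ[X] × (ℕ → ℤ)) :=
  M.map (fun y => (x.1 * y.1, fun m => x.2 m + y.2 m))

/-- the list of all products -/
noncomputable def LVA_prod (L M : List (ℤ[X] × (ℕ → ℤ))) : List (ℤ[X] × (ℕ → ℤ)) :=
  L.flatMap (fun x => LVA_one x M)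

theorem LVA_tm_mul (m : ℕ) (x y : ℤ[X] × (ℕ → ℤ)) (hx : 0 ≤ x.2 m) (hy : 0 ≤ y.2 m) :
    tm (x.1 * y.1, fun m => x.2 m + y.2 m) m = tm x m * tm y m := by
  simp only [tm, eval_mul]
  rw [Int.toNat_add hx hy, pow_add]
  ring

theorem LVA_one_sm (m : ℕ) (x : ℤ[X] × (ℕ → ℤ)) (hx : 0 ≤ x.2 m)
    (M : List (ℤ[X] × (ℕ → ℤ))) (hM : ∀ y ∈ M, 0 ≤ y.2 m) :
    sm (LVA_one x M) m = tm x m * sm M m := by
  induction M with
  | nil => simp [sm, LVA_one]
  | cons a l ih =>
    have h1 := ih (fun y hy => hM y (List.mem_cons_of_mem _ hy))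
    have h2 := LVA_tm_mul m x a hx (hM a List.mem_cons_self)
    simp only [sm, LVA_one, List.map_cons, List.sum_cons] at h1 ⊢
    rw [h1, h2]
    ring

theorem LVA_prod_sm (m : ℕ) (L M : List (ℤ[X] × (ℕ → ℤ))) (hL : ∀ x ∈ L, 0 ≤ x.2 m)
    (hM : ∀ y ∈ M, 0 ≤ y.2 m) : sm (LVA_prod L M) m = sm L m * sm M m := by
  induction L with
  | nil => simp [sm, LVA_prod]
  | cons a l ih =>
    have h1 := ih (fun y hy => hL y (List.mem_cons_of_mem _ hy))
    have h2 := LVA_one_sm m a (hL a List.mem_cons_self) M hM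
    have h3 : sm (LVA_prod (a :: l) M) m = sm (LVA_one a M) m + sm (LVA_prod l M) m := by
      simp [sm, LVA_prod, List.flatMap_cons]
    rw [h3, h2, h1]
    simp only [sm, List.map_cons, List.sum_cons]
    ring

theorem LVA_mul (k : ℕ) (f g : ℕ → ℤ) (hf : Lev k f) (hg : Lev k g) :
    Lev k (fun m => f m * g m) := by
  cases k with
  | zero =>
    obtain ⟨p, hp⟩ := hf
    obtain ⟨q, hq⟩ := hg
    exact ⟨p * q, by filter_upwards [hp, hq] with m h1 h2; rw [h1, h2, eval_mul]⟩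
  | succ k =>
    obtain ⟨L, hL, h⟩ := hf
    obtain ⟨M, hM, h'⟩ := hg
    refine ⟨LVA_prod L M, ?_, ?_⟩
    · intro z hz
      obtain ⟨x, hx, hz1⟩ := List.mem_flatMap.mp hz
      obtain ⟨y, hy, rfl⟩ := List.mem_map.mp hz1
      refine ⟨LVA_add k _ _ (hL x hx).1 (hM y hy).1, ?_⟩
      filter_upwards [(hL x hx).2, (hM y hy).2] with m h1 h2
      exact add_nonneg h1 h2
    · filter_upwards [h, h', LVA_all L (fun x hx => (hL x hx).2),
        LVA_all M (fun x hx => (hM x hx).2)] with m h1 h2 h3 h4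
      rw [h1, h2, LVA_prod_sm m L M h3 h4]

theorem LVA_mono (k : ℕ) : ∀ f : ℕ → ℤ, Lev k f → Lev (k + 1) f := by
  induction k with
  | zero =>
    intro f hf
    obtain ⟨p, hp⟩ := hf
    exact LVA_congr 1 _ _ (LVA_poly 1 p) (by filter_upwards [hp] with m h1; exact h1.symm)
  | succ k ih =>
    intro f hf
    obtain ⟨L, hL, h⟩ := hf
    exact ⟨L, fun x hx => ⟨ih x.2 (hL x hx).1, (hL x hx).2⟩, h⟩

theorem LVA : LVA_stmt :=
  ⟨LVA_add, LVA_neg, LVA_mul, LVA_mono, LVA_poly, LVA_congr⟩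

end Pool.Agent.NoFormula
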